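import Mathlib

/-!
# A Hessian nilpotent self-inverting polynomial outside the isotropic construction

With `u = z₄ + i z₅`, the polynomial
`P = u (z₁ + i z₂) + 2 u² z₃ - u³ (z₁ - i z₂)` in five variables is Hessian nilpotent
(`(Hes P)³ = 0`) and self-inverting, but it does not lie in `𝒜_Ξ` for any nonempty set `Ξ` of
pairwise orthogonal vectors of `ℂ⁵`.
-/

namespace Pool.Agent.Results.MP_0f7e3c_al.NotIsotropic

section Defs

open MvPowerSeries

variable {n : ℕ}

/-- The gradient `∇P` of a formal power series. -/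
noncomputable def grad (P : MvPowerSeries (Fin n) ℂ) : Fin n → MvPowerSeries (Fin n) ℂ :=
  fun i => pderiv ℂ i P

/-- The Hessian matrix of a formal power series. -/
noncomputable def hes (P : MvPowerSeries (Fin n) ℂ) :
    Matrix (Fin n) (Fin n) (MvPowerSeries (Fin n) ℂ) :=
  Matrix.of fun i j => pderiv ℂ i (pderiv ℂ j P)

/-- `P` is Hessian nilpotent. -/
def IsHN (P : MvPowerSeries (Fin n) ℂ) : Prop := IsNilpotent (hes P)

/-- `F` and `G` are formal maps without constant terms, inverse to each other for composition. -/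
def AreFormalInverses (F G : Fin n → MvPowerSeries (Fin n) ℂ) : Prop :=
  (∀ i, constantCoeff (F i) = 0) ∧ (∀ i, constantCoeff (G i) = 0) ∧
    (∀ i, subst G (F i) = X i) ∧ ∀ i, subst F (G i) = X i

/-- `P` is self-inverting: `o(P) ≥ 2`, `(Hes P)(0)` is nilpotent, and the formal inverse map of
`z - ∇P(z)` is `z + ∇P(z)`. -/
def IsSelfInverting (P : MvPowerSeries (Fin n) ℂ) : Prop :=
  2 ≤ order P ∧ IsNilpotent ((hes P).map constantCoeff) ∧
    AreFormalInverses (fun i => X i - grad P i) (fun i => X i + grad P i)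

/-- The bilinear form `⟨u, v⟩ = ∑ uᵢ vᵢ` on `ℂⁿ`. -/
def bil (u v : Fin n → ℂ) : ℂ := ∑ i, u i * v i

/-- The linear form `h_α(z) = ⟨α, z⟩`, as a formal power series. -/
noncomputable def linForm (α : Fin n → ℂ) : MvPowerSeries (Fin n) ℂ :=
  ∑ i, MvPowerSeries.C (α i) * X i

/-- The set `𝒜_Ξ`: the completion, inside the ring of formal power series, of the subalgebra
generated by the linear forms `h_α`, `α ∈ Ξ`.  A series `P` belongs to it if for every `N` there is
`Q` in the subalgebra such that `P` and `Q` have the same coefficients in all degrees `< N`. -/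
def isotropicAlgebra (Ξ : Set (Fin n → ℂ)) : Set (MvPowerSeries (Fin n) ℂ) :=
  {P | ∀ N : ℕ, ∃ Q ∈ Algebra.adjoin ℂ (linForm '' Ξ), ∀ m : Fin n →₀ ℕ,
    m.degree < N → coeff m P = coeff m Q}

end Defs

section Deriv

open MvPowerSeries

/-- The derivation `D_v = ∑ vᵢ ∂ᵢ`. -/
noncomputable def D {n : ℕ} (v : Fin n → ℂ) :
    Derivation ℂ (MvPowerSeries (Fin n) ℂ) (MvPowerSeries (Fin n) ℂ) :=
  ∑ i, v i • pderiv ℂ i

lemma D_apply {n : ℕ} (v : Fin n → ℂ) (P : MvPowerSeries (Fin n) ℂ) :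
    D v P = ∑ i, v i • pderiv ℂ i P := by
  have h := map_sum (Derivation.coeFnAddMonoidHom (R := ℂ) (A := MvPowerSeries (Fin n) ℂ)
    (M := MvPowerSeries (Fin n) ℂ)) (fun i => v i • pderiv ℂ i) Finset.univ
  have h' := congrFun h P
  rw [Finset.sum_apply] at h'
  exact h'

lemma D_linForm {n : ℕ} (v α : Fin n → ℂ) :
    D v (linForm α) = MvPowerSeries.C (bil α v) := by
  rw [D_apply]
  have : ∀ i, pderiv ℂ i (linForm α) = MvPowerSeries.C (α i) := by
    intro i
    classical
    ext m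
    rw [coeff_pderiv]
    simp only [linForm, map_sum, coeff_C_mul, coeff_X, coeff_C]
    rw [Finset.sum_eq_single i]
    · by_cases hm : m = 0 <;> simp [hm]
    · intro j _ hj
      have : m + Finsupp.single i 1 ≠ Finsupp.single j 1 := by
        intro h
        have := DFunLike.congr_fun h i
        simp [Finsupp.single_apply, hj] at this
      simp [this]
    · simp
  simp only [this, bil, map_sum]
  apply Finset.sum_congr rfl
  intro i _
  rw [smul_eq_C_mul, ← map_mul, mul_comm]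

lemma D_eq_zero {n : ℕ} {Ξ : Set (Fin n → ℂ)} {v : Fin n → ℂ} (hv : ∀ α ∈ Ξ, bil α v = 0)
    {P : MvPowerSeries (Fin n) ℂ} (hP : P ∈ isotropicAlgebra Ξ) : D v P = 0 := by
  have hQ : ∀ Q ∈ Algebra.adjoin ℂ (linForm '' Ξ), D v Q = 0 := by
    intro Q hQ
    induction hQ using Algebra.adjoin_induction with
    | mem x hx =>
      obtain ⟨α, hα, rfl⟩ := hx
      rw [D_linForm, hv α hα, map_zero]
    | algebraMap r => exact Derivation.map_algebraMap _ _
    | add x y _ _ hx hy => rw [map_add, hx, hy, add_zero]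
    | mul x y _ _ hx hy => rw [Derivation.leibniz, hx, hy, smul_zero, smul_zero, add_zero]
  ext m
  obtain ⟨Q, hQmem, hQc⟩ := hP (m.degree + 2)
  have h1 : coeff m (D v P) = coeff m (D v Q) := by
    rw [D_apply, D_apply, map_sum, map_sum]
    apply Finset.sum_congr rfl
    intro i _
    rw [coeff_smul, coeff_smul, coeff_pderiv, coeff_pderiv, hQc]
    rw [map_add, Finsupp.degree_single]
    omega
  rw [h1, hQ Q hQmem]

end Deriv

/-! ### The example -/

section Poly
open MvPolynomial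

/-- `u = z₄ + i z₅`. -/
noncomputable def uu : MvPolynomial (Fin 5) ℂ := X 3 + C Complex.I * X 4

/-- `A = z₁ + i z₂`. -/
noncomputable def AA : MvPolynomial (Fin 5) ℂ := X 0 + C Complex.I * X 1

/-- `B = z₁ - i z₂`. -/
noncomputable def BB : MvPolynomial (Fin 5) ℂ := X 0 - C Complex.I * X 1

/-- The polynomial `P = u (z₁ + i z₂) + 2 u² z₃ - u³ (z₁ - i z₂)`. -/
noncomputable def P : MvPolynomial (Fin 5) ℂ := uu * AA + 2 * uu ^ 2 * X 2 - uu ^ 3 * BB

/-- `∂₄ P`. -/
noncomputable def WW : MvPolynomial (Fin 5) ℂ := AA + 4 * uu * X 2 - 3 * uu ^ 2 * BB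

lemma CI_sq : (C Complex.I : MvPolynomial (Fin 5) ℂ) ^ 2 = -1 := by
  rw [← C_pow, Complex.I_sq]; simp

/-- The gradient of `P`. -/
noncomputable def gP : Fin 5 → MvPolynomial (Fin 5) ℂ :=
  ![uu - uu ^ 3, C Complex.I * (uu + uu ^ 3), 2 * uu ^ 2, WW, C Complex.I * WW]

/-- The gradient of `u`. -/
noncomputable def gu : Fin 5 → MvPolynomial (Fin 5) ℂ := ![0, 0, 0, 1, C Complex.I]
/-- The gradient of `A`. -/
noncomputable def gA : Fin 5 → MvPolynomial (Fin 5) ℂ := ![1, C Complex.I, 0, 0, 0]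
/-- The gradient of `B`. -/
noncomputable def gB : Fin 5 → MvPolynomial (Fin 5) ℂ := ![1, -C Complex.I, 0, 0, 0]
/-- The gradient of `z₃`. -/
noncomputable def gX : Fin 5 → MvPolynomial (Fin 5) ℂ := ![0, 0, 1, 0, 0]

lemma pderiv_uu (i : Fin 5) : MvPolynomial.pderiv i uu = gu i := by
  fin_cases i <;> simp [uu, gu, MvPolynomial.pderiv_X, Pi.single_apply, MvPolynomial.pderiv_mul]

lemma pderiv_AA (i : Fin 5) : MvPolynomial.pderiv i AA = gA i := by
  fin_cases i <;> simp [AA, gA, MvPolynomial.pderiv_X, Pi.single_apply, MvPolynomial.pderiv_mul]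

lemma pderiv_BB (i : Fin 5) : MvPolynomial.pderiv i BB = gB i := by
  fin_cases i <;> simp [BB, gB, MvPolynomial.pderiv_X, Pi.single_apply, MvPolynomial.pderiv_mul]

lemma pderiv_X2 (i : Fin 5) : MvPolynomial.pderiv i (X 2 : MvPolynomial (Fin 5) ℂ) = gX i := by
  fin_cases i <;> simp [gX, MvPolynomial.pderiv_X, Pi.single_apply]

lemma pderiv_P' (i : Fin 5) : MvPolynomial.pderiv i P =
    (AA + 4 * uu * X 2 - 3 * uu ^ 2 * BB) * gu i + uu * gA i + 2 * uu ^ 2 * gX i
      - uu ^ 3 * gB i := by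
  have h2 : MvPolynomial.pderiv i (2 : MvPolynomial (Fin 5) ℂ) = 0 := by
    have : (2 : MvPolynomial (Fin 5) ℂ) = C 2 := (map_ofNat C 2).symm
    rw [this]
    exact MvPolynomial.pderiv_C
  simp only [P, map_add, map_sub, MvPolynomial.pderiv_mul, MvPolynomial.pderiv_pow, pderiv_uu,
    pderiv_AA, pderiv_BB, pderiv_X2, h2]
  push_cast
  ring

lemma pderiv_P (i : Fin 5) : MvPolynomial.pderiv i P = gP i := by
  rw [pderiv_P']
  fin_cases i <;> simp [gP, gu, gA, gB, gX, WW] <;> ring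


/-- Coercion from polynomials to power series. -/
noncomputable def φ : MvPolynomial (Fin 5) ℂ →+* MvPowerSeries (Fin 5) ℂ :=
  MvPolynomial.coeToMvPowerSeries.ringHom

lemma φ_apply (p : MvPolynomial (Fin 5) ℂ) : φ p = (p : MvPowerSeries (Fin 5) ℂ) := rfl

lemma grad_P (i : Fin 5) : grad (P : MvPowerSeries (Fin 5) ℂ) i = φ (gP i) := by
  rw [grad, MvPowerSeries.pderiv_coe, pderiv_P]
  rfl

/-- The vector of first derivatives of the coefficient vector. -/
noncomputable def gw : Fin 5 → MvPolynomial (Fin 5) ℂ :=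
  ![1 - 3 * uu ^ 2, C Complex.I * (1 + 3 * uu ^ 2), 4 * uu, 0, 0]

lemma pderiv2_P (i j : Fin 5) : MvPolynomial.pderiv i (gP j) =
    gu i * gw j + gw i * gu j + (4 * X 2 - 6 * uu * BB) * (gu i * gu j) := by
  have h2 : ∀ (i : Fin 5) (k : ℕ), MvPolynomial.pderiv i (k : MvPolynomial (Fin 5) ℂ) = 0 := by
    intro i k
    have : (k : MvPolynomial (Fin 5) ℂ) = C (k : ℂ) := (map_natCast C k).symm
    rw [this]
    exact MvPolynomial.pderiv_C
  have e2 := h2 i 2
  have e3 := h2 i 3
  have e4 := h2 i 4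
  push_cast at e2 e3 e4
  have hI := CI_sq
  fin_cases j <;>
    simp only [gP, WW, map_add, map_sub, MvPolynomial.pderiv_mul, MvPolynomial.pderiv_pow,
      pderiv_uu, pderiv_AA, pderiv_BB, pderiv_X2, e2, e3, e4, MvPolynomial.pderiv_C,
      Matrix.cons_val, Fin.mk_one, Fin.zero_eta, Fin.reduceFinMk] <;>
    push_cast <;> fin_cases i <;>
    simp [gu, gA, gB, gX, gw] <;> (try ring_nf) <;> (try simp only [hI]) <;> (try ring) <;>
    (try exact Or.inl trivial)

/-- The scalar `∂₄∂₄ P`. -/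
noncomputable def ss : MvPolynomial (Fin 5) ℂ := 4 * X 2 - 6 * uu * BB

/-- The Hessian of `P` as a polynomial matrix. -/
noncomputable def HP : Matrix (Fin 5) (Fin 5) (MvPolynomial (Fin 5) ℂ) :=
  Matrix.vecMulVec gu gw + Matrix.vecMulVec gw gu + ss • Matrix.vecMulVec gu gu

lemma hes_P : hes (P : MvPowerSeries (Fin 5) ℂ) = HP.map φ := by
  ext1 i j
  have h1 : MvPowerSeries.pderiv ℂ j (P : MvPowerSeries (Fin 5) ℂ) = φ (gP j) := grad_P j
  simp only [hes, Matrix.of_apply, h1, Matrix.map_apply]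
  rw [φ_apply, MvPowerSeries.pderiv_coe, pderiv2_P, φ_apply]
  congr 1

lemma gu_gu : gu ⬝ᵥ gu = 0 := by
  simp [gu, dotProduct, Fin.sum_univ_five, ← pow_two, CI_sq]

lemma gu_gw : gu ⬝ᵥ gw = 0 := by
  simp [gu, gw, dotProduct, Fin.sum_univ_five]

lemma gw_gu : gw ⬝ᵥ gu = 0 := by
  simp [gu, gw, dotProduct, Fin.sum_univ_five]

lemma HP_sq : HP * HP = (gw ⬝ᵥ gw) • Matrix.vecMulVec gu gu := by
  simp only [HP, add_mul, mul_add, Matrix.smul_mul, Matrix.mul_smul,
    Matrix.vecMulVec_mul_vecMulVec, gu_gu, gu_gw, gw_gu]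
  simp [Matrix.vecMulVec_smul, Matrix.smul_vecMulVec]

lemma HP_cube : HP ^ 3 = 0 := by
  rw [pow_succ, pow_two, HP_sq]
  simp only [HP, mul_add, Matrix.smul_mul, Matrix.mul_smul,
    Matrix.vecMulVec_mul_vecMulVec, gu_gu, gu_gw, gw_gu]
  simp

lemma isHN_P : IsHN (P : MvPowerSeries (Fin 5) ℂ) := by
  refine ⟨3, ?_⟩
  rw [hes_P]
  have : HP.map φ = φ.mapMatrix HP := rfl
  rw [this, ← map_pow, HP_cube, map_zero]

lemma constantCoeff_uu : MvPolynomial.constantCoeff uu = 0 := by simp [uu]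
lemma constantCoeff_AA : MvPolynomial.constantCoeff AA = 0 := by simp [AA]
lemma constantCoeff_BB : MvPolynomial.constantCoeff BB = 0 := by simp [BB]
lemma constantCoeff_WW : MvPolynomial.constantCoeff WW = 0 := by
  simp [WW, constantCoeff_uu, constantCoeff_AA]

lemma constantCoeff_gP (i : Fin 5) : MvPolynomial.constantCoeff (gP i) = 0 := by
  fin_cases i <;> simp [gP, constantCoeff_uu, constantCoeff_WW]

lemma constantCoeff_P : MvPolynomial.constantCoeff P = 0 := by
  simp [P, constantCoeff_uu]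

lemma order_P : 2 ≤ MvPowerSeries.order (P : MvPowerSeries (Fin 5) ℂ) := by
  have h : P = uu * (AA + 2 * uu * X 2 - uu ^ 2 * BB) := by
    simp only [P]; ring
  have h1 : 1 ≤ MvPowerSeries.order (φ uu) := by
    rw [MvPowerSeries.one_le_order_iff_constCoeff_eq_zero, φ_apply]
    exact constantCoeff_uu
  have h2 : 1 ≤ MvPowerSeries.order (φ (AA + 2 * uu * X 2 - uu ^ 2 * BB)) := by
    rw [MvPowerSeries.one_le_order_iff_constCoeff_eq_zero, φ_apply]
    have : MvPolynomial.constantCoeff (AA + 2 * uu * X 2 - uu ^ 2 * BB) = 0 := by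
      simp [constantCoeff_uu, constantCoeff_AA]
    exact this
  rw [← φ_apply, h, map_mul]
  calc (2 : ℕ∞) = 1 + 1 := by norm_num
    _ ≤ _ := add_le_add h1 h2
    _ ≤ _ := MvPowerSeries.le_order_mul

/-- Evaluation of `gP` after the substitution `z ↦ z + ε ∇P`, `ε² = 1`. -/
lemma aeval_gP {ε : MvPolynomial (Fin 5) ℂ} (i : Fin 5) :
    MvPolynomial.aeval (fun j => X j + ε * gP j) (gP i) = gP i := by
  set a : MvPolynomial (Fin 5) ℂ →ₐ[ℂ] MvPolynomial (Fin 5) ℂ :=
    MvPolynomial.aeval (fun j => X j + ε * gP j) with ha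
  have haX : ∀ j, a (X j) = X j + ε * gP j := fun j => MvPolynomial.aeval_X _ _
  have haC : ∀ r, a (C r) = C r := fun r => MvPolynomial.algHom_C _ _
  clear_value a
  have hu : a uu = uu := by
    simp only [uu, map_add, map_mul, haX, haC]
    simp only [gP, Matrix.cons_val]
    have hI := CI_sq
    linear_combination (ε * WW) * hI
  have hA : a AA = AA - 2 * ε * uu ^ 3 := by
    simp only [AA, map_add, map_mul, haX, haC]
    simp only [gP, Matrix.cons_val]
    have hI := CI_sq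
    linear_combination (ε * (uu + uu ^ 3)) * hI
  have hB : a BB = BB + 2 * ε * uu := by
    simp only [BB, map_sub, map_mul, haX, haC]
    simp only [gP, Matrix.cons_val]
    have hI := CI_sq
    linear_combination (-ε * (uu + uu ^ 3)) * hI
  have hX : a (X 2 : MvPolynomial (Fin 5) ℂ) =
      X 2 + 2 * ε * uu ^ 2 := by
    simp only [haX]
    simp only [gP, Matrix.cons_val]
    ring
  have hW : a WW = WW := by
    simp only [WW, map_add, map_sub, map_mul, map_pow, hu, hA, hB, hX, map_ofNat]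
    ring
  fin_cases i <;> simp [gP, hu, hW, haC, map_ofNat]

lemma subst_gP (e : ℂ) (i : Fin 5) :
    MvPowerSeries.subst (fun j => φ (X j + C e * gP j)) (φ (X i - C e * gP i)) =
      MvPowerSeries.X i := by
  rw [φ_apply (X i - C e * gP i), MvPowerSeries.subst_coe]
  have h : ∀ p : MvPolynomial (Fin 5) ℂ, MvPolynomial.aeval (fun j => φ (X j + C e * gP j)) p =
      φ (MvPolynomial.aeval (fun j => X j + C e * gP j) p) := by
    intro p
    induction p using MvPolynomial.induction_on with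
    | C r =>
      rw [MvPolynomial.algHom_C, MvPolynomial.algHom_C, MvPolynomial.algebraMap_eq, φ_apply,
        MvPolynomial.coe_C, MvPowerSeries.algebraMap_apply]
      rfl
    | add p q hp hq => rw [map_add, map_add, map_add, hp, hq]
    | mul_X p j hp =>
      rw [map_mul, map_mul, map_mul, hp, MvPolynomial.aeval_X, MvPolynomial.aeval_X]
  rw [h, map_sub, map_mul, aeval_gP, MvPolynomial.aeval_X, MvPolynomial.algHom_C,
    MvPolynomial.algebraMap_eq, add_sub_cancel_right, φ_apply, MvPolynomial.coe_X]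

lemma φ_C_one : (C 1 : MvPolynomial (Fin 5) ℂ) = 1 := C_1

lemma isSelfInverting_P : IsSelfInverting (P : MvPowerSeries (Fin 5) ℂ) := by
  refine ⟨order_P, ?_, ?_, ?_, ?_, ?_⟩
  · obtain ⟨k, hk⟩ := isHN_P
    refine ⟨k, ?_⟩
    have : (hes (P : MvPowerSeries (Fin 5) ℂ)).map MvPowerSeries.constantCoeff =
      (MvPowerSeries.constantCoeff (R := ℂ) (σ := Fin 5)).mapMatrix (hes (P : MvPowerSeries (Fin 5) ℂ)) := rfl
    rw [this, ← map_pow, hk, map_zero]
  · intro i
    have h1 : MvPowerSeries.constantCoeff (φ (gP i)) = 0 := constantCoeff_gP i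
    simp [grad_P, h1]
  · intro i
    have h1 : MvPowerSeries.constantCoeff (φ (gP i)) = 0 := constantCoeff_gP i
    simp [grad_P, h1]
  · intro i
    have h := subst_gP 1 i
    simpa only [C_1, one_mul, map_add, map_sub, φ_apply (X _), MvPolynomial.coe_X, ← grad_P]
      using h
  · intro i
    have h := subst_gP (-1) i
    simpa only [C_neg, C_1, neg_one_mul, sub_neg_eq_add, ← sub_eq_add_neg, map_add, map_sub,
      φ_apply (X _), MvPolynomial.coe_X, ← grad_P] using h

lemma D_P_eq {v : Fin 5 → ℂ} (h : D v (P : MvPowerSeries (Fin 5) ℂ) = 0) :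
    v 0 = 0 ∧ v 1 = 0 ∧ v 2 = 0 := by
  have h1 : (∑ i, C (v i) * gP i : MvPolynomial (Fin 5) ℂ) = 0 := by
    have h2 : φ (∑ i, C (v i) * gP i) = φ 0 := by
      rw [map_zero, ← h, D_apply, map_sum]
      apply Finset.sum_congr rfl
      intro i _
      rw [map_mul, MvPowerSeries.smul_eq_C_mul, ← grad_P, φ_apply, MvPolynomial.coe_C]
      rfl
    exact MvPolynomial.coe_injective _ _ h2
  have h3 : ∀ t : ℂ, v 0 * (t - t ^ 3) + v 1 * (Complex.I * (t + t ^ 3)) + v 2 * (2 * t ^ 2) = 0 := by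
    intro t
    have := congrArg (MvPolynomial.eval ![0, 0, 0, t, 0]) h1
    simpa [Fin.sum_univ_five, gP, WW, uu, AA, BB] using this
  have e1 := h3 1
  have e2 := h3 (-1)
  have e3 := h3 2
  have hv2 : v 2 = 0 := by linear_combination (1 / 4) * e1 + (1 / 4) * e2
  have hv1 : v 1 * Complex.I = 0 := by linear_combination (1 / 4) * e1 - (1 / 4) * e2
  have hv0 : v 0 = 0 := by linear_combination (-1 / 6) * e3 + (10 / 6) * hv1 + (8 / 6) * hv2
  exact ⟨hv0, (mul_eq_zero.1 hv1).resolve_right Complex.I_ne_zero, hv2⟩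

end Poly

/-- There is a polynomial (in five variables) which is Hessian nilpotent and self-inverting, but,
as a formal power series, lies in `𝒜_Ξ` for no nonempty set `Ξ` of pairwise orthogonal vectors. -/
theorem result :
    ∃ P : MvPolynomial (Fin 5) ℂ,
      IsHN (P : MvPowerSeries (Fin 5) ℂ) ∧ IsSelfInverting (P : MvPowerSeries (Fin 5) ℂ) ∧
      ∀ Ξ : Set (Fin 5 → ℂ), Ξ.Nonempty → (∀ α ∈ Ξ, ∀ β ∈ Ξ, bil α β = 0) →
        (P : MvPowerSeries (Fin 5) ℂ) ∉ isotropicAlgebra Ξ := by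
  refine ⟨P, isHN_P, isSelfInverting_P, ?_⟩
  intro Ξ _ hΞ hP
  have h1 : ∀ α ∈ Ξ, α 0 = 0 := fun α hα =>
    (D_P_eq (D_eq_zero (fun β hβ => hΞ β hβ α hα) hP)).1
  have h2 : D ![1, 0, 0, 0, 0] (P : MvPowerSeries (Fin 5) ℂ) = 0 := by
    refine D_eq_zero (fun α hα => ?_) hP
    simp [bil, Fin.sum_univ_five, h1 α hα]
  have := (D_P_eq h2).1
  simp at this

end Pool.Agent.Results.MP_0f7e3c_al.NotIsotropic
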